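import Pool.Agent.Helper61.QE.St4

/-! QE MODULE ATR (project QD part E, MP_d112a4_gt): area of a ring. -/

set_option autoImplicit false

open MeasureTheory Set Filter Topology Complex
open scoped ContDiff ComplexConjugate ENNReal

namespace Pool.Agent.Helper36.QE

open Pool.Agent.Helper61.QE

private theorem symm_eq (p : ℝ × ℝ) : Complex.polarCoord.symm p = circleMap 0 p.1 p.2 := by
  rw [Complex.polarCoord_symm_apply, circleMap, zero_add, Complex.exp_mul_I]
  push_cast
  rfl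

private theorem polar (ρ : ℝ) (hρ : 0 < ρ) (F : ℂ → ℝ≥0∞) (hF : Measurable F) :
    ∫⁻ z in {z : ℂ | ρ < ‖z‖ ∧ ‖z‖ < 1}, F z =
      ∫⁻ r in Ioo ρ 1, ENNReal.ofReal r * ∫⁻ θ in Ioo (-Real.pi) Real.pi, F (circleMap 0 r θ) := by
  have hR : MeasurableSet {z : ℂ | ρ < ‖z‖ ∧ ‖z‖ < 1} :=
    ((isOpen_lt continuous_const continuous_norm).inter
      (isOpen_lt continuous_norm continuous_const)).measurableSet
  have hcm : Continuous (fun p : ℝ × ℝ => circleMap 0 p.1 p.2) := by
    unfold circleMap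
    fun_prop
  rw [← lintegral_indicator hR, ← Complex.lintegral_comp_polarCoord_symm]
  have htm : MeasurableSet polarCoord.target := polarCoord.open_target.measurableSet
  have hIm : MeasurableSet (Ioo ρ 1 ×ˢ (univ : Set ℝ)) := measurableSet_Ioo.prod MeasurableSet.univ
  have h1 : ∫⁻ p in polarCoord.target, ENNReal.ofReal p.1 •
      ({z : ℂ | ρ < ‖z‖ ∧ ‖z‖ < 1}).indicator F (Complex.polarCoord.symm p) =
      ∫⁻ p in polarCoord.target, (Ioo ρ 1 ×ˢ (univ : Set ℝ)).indicator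
        (fun p : ℝ × ℝ => ENNReal.ofReal p.1 * F (circleMap 0 p.1 p.2)) p := by
    apply setLIntegral_congr_fun htm
    intro p hp
    have hp0 : 0 < p.1 := hp.1
    have hn : ‖Complex.polarCoord.symm p‖ = p.1 := by
      rw [symm_eq, norm_circleMap_zero, abs_of_pos hp0]
    simp only
    by_cases hc : p.1 ∈ Ioo ρ 1
    · have m1 : Complex.polarCoord.symm p ∈ {z : ℂ | ρ < ‖z‖ ∧ ‖z‖ < 1} := by
        show ρ < ‖Complex.polarCoord.symm p‖ ∧ ‖Complex.polarCoord.symm p‖ < 1
        rw [hn]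
        exact hc
      have m2 : p ∈ Ioo ρ 1 ×ˢ (univ : Set ℝ) := ⟨hc, mem_univ _⟩
      rw [indicator_of_mem m1, indicator_of_mem m2, symm_eq, smul_eq_mul]
    · have m1 : Complex.polarCoord.symm p ∉ {z : ℂ | ρ < ‖z‖ ∧ ‖z‖ < 1} := by
        intro hh
        have hh' : ρ < ‖Complex.polarCoord.symm p‖ ∧ ‖Complex.polarCoord.symm p‖ < 1 := hh
        rw [hn] at hh'
        exact hc hh'
      have m2 : p ∉ Ioo ρ 1 ×ˢ (univ : Set ℝ) := fun hh => hc hh.1
      rw [indicator_of_notMem m1, indicator_of_notMem m2, smul_zero]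
  have h2 : Ioo ρ 1 ×ˢ (univ : Set ℝ) ∩ polarCoord.target = Ioo ρ 1 ×ˢ Ioo (-Real.pi) Real.pi := by
    ext p
    constructor
    · rintro ⟨⟨a, -⟩, ⟨-, b⟩⟩
      exact ⟨a, b⟩
    · rintro ⟨a, b⟩
      exact ⟨⟨a, mem_univ _⟩, ⟨hρ.trans a.1, b⟩⟩
  have hmm : AEMeasurable (fun p : ℝ × ℝ => ENNReal.ofReal p.1 * F (circleMap 0 p.1 p.2))
      ((volume.restrict (Ioo ρ 1)).prod (volume.restrict (Ioo (-Real.pi) Real.pi))) := by
    apply Measurable.aemeasurable
    exact (ENNReal.measurable_ofReal.comp measurable_fst).mul (hF.comp hcm.measurable)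
  rw [h1, setLIntegral_indicator hIm, h2, Measure.volume_eq_prod, ← Measure.prod_restrict,
    lintegral_prod (fun p : ℝ × ℝ => ENNReal.ofReal p.1 * F (circleMap 0 p.1 p.2)) hmm]
  apply setLIntegral_congr_fun measurableSet_Ioo
  intro r _
  simp only
  rw [lintegral_const_mul]
  exact hF.comp (continuous_circleMap 0 r).measurable

private theorem mean_zero (k : ℂ → ℂ) (hk : DifferentiableOn ℂ k D) (r : ℝ) (h0 : 0 < r)
    (h1 : r < 1) : ∫ θ in (-Real.pi)..Real.pi,
      (circleMap 0 r θ) ^ 2 * deriv k (circleMap 0 r θ) = 0 := by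
  have hdk : DifferentiableOn ℂ (deriv k) D := hk.deriv Metric.isOpen_ball
  have hd : DifferentiableOn ℂ (fun w => w * deriv k w) (Metric.closedBall 0 r) := by
    apply (differentiableOn_id.mul hdk).mono
    exact Metric.closedBall_subset_ball h1
  have hc := (hd.diffContOnCl_ball (le_refl _)).circleIntegral_eq_zero h0.le
  have hper : Function.Periodic (fun θ : ℝ =>
      (circleMap 0 r θ) ^ 2 * deriv k (circleMap 0 r θ)) (2 * Real.pi) := by
    intro θ
    simp only
    rw [periodic_circleMap 0 r θ]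
  have e1 := hper.intervalIntegral_add_eq (-Real.pi) 0
  have e2 : -Real.pi + 2 * Real.pi = Real.pi := by ring
  rw [e2, zero_add] at e1
  rw [e1]
  unfold circleIntegral at hc
  have e3 : ∀ θ : ℝ, deriv (circleMap 0 r) θ • (circleMap 0 r θ * deriv k (circleMap 0 r θ)) =
      Complex.I * ((circleMap 0 r θ) ^ 2 * deriv k (circleMap 0 r θ)) := by
    intro θ
    rw [deriv_circleMap, smul_eq_mul]
    ring
  simp only [e3] at hc
  rw [intervalIntegral.integral_const_mul] at hc
  exact (mul_eq_zero.1 hc).resolve_left Complex.I_ne_zero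

private theorem per_r (k : ℂ → ℂ) (hk : DifferentiableOn ℂ k D) (r : ℝ) (h0 : 0 < r)
    (h1 : r < 1) : ∫⁻ θ in Ioo (-Real.pi) Real.pi, ENNReal.ofReal
      (‖-((circleMap 0 r θ) ^ 2)⁻¹ + deriv k (circleMap 0 r θ)‖ ^ 2) =
      ENNReal.ofReal (2 * Real.pi / r ^ 4) +
      ∫⁻ θ in Ioo (-Real.pi) Real.pi, ENNReal.ofReal (‖deriv k (circleMap 0 r θ)‖ ^ 2) := by
  have hpi := Real.pi_pos
  have hle : -Real.pi ≤ Real.pi := by linarith
  have hcd : Continuous (fun θ : ℝ => deriv k (circleMap 0 r θ)) := by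
    have hdk : ContinuousOn (deriv k) D := (hk.deriv Metric.isOpen_ball).continuousOn
    apply hdk.comp_continuous (continuous_circleMap 0 r)
    intro θ
    rw [mem_ball_zero_iff, norm_circleMap_zero, abs_of_pos h0]
    exact h1
  have hcc : Continuous (fun θ : ℝ => circleMap 0 r θ) := continuous_circleMap 0 r
  have hz : ∀ θ : ℝ, circleMap 0 r θ ≠ 0 := fun θ => circleMap_ne_center h0.ne'
  obtain ⟨B, hB⟩ : ∃ B : ℝ → ℝ, B = fun θ => ‖deriv k (circleMap 0 r θ)‖ ^ 2 := ⟨_, rfl⟩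
  obtain ⟨C, hC⟩ : ∃ C : ℝ → ℂ, C = fun θ => (circleMap 0 r θ) ^ 2 * deriv k (circleMap 0 r θ) :=
    ⟨_, rfl⟩
  have hBc : Continuous B := by rw [hB]; exact hcd.norm.pow 2
  have hCc : Continuous C := by rw [hC]; exact (hcc.pow 2).mul hcd
  have hBi : IntegrableOn B (Ioo (-Real.pi) Real.pi) :=
    (hBc.continuousOn.integrableOn_Icc).mono_set Ioo_subset_Icc_self
  have hAeq : ∀ θ, ‖-((circleMap 0 r θ) ^ 2)⁻¹ + deriv k (circleMap 0 r θ)‖ ^ 2 =
      1 / r ^ 4 + (B θ - 2 / r ^ 4 * (C θ).re) := by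
    intro θ
    rw [hB, hC]
    simp only
    obtain ⟨z, hzz⟩ : ∃ z : ℂ, z = circleMap 0 r θ := ⟨_, rfl⟩
    have hz0 : z ≠ 0 := by rw [hzz]; exact hz θ
    have hn : Complex.normSq z = r ^ 2 := by
      rw [Complex.normSq_eq_norm_sq, hzz, norm_circleMap_zero, sq_abs]
    rw [← hzz]
    have e1 : (z ^ 2)⁻¹ = conj (z ^ 2) / ((r ^ 4 : ℝ) : ℂ) := by
      have e2 : Complex.normSq (z ^ 2) = r ^ 4 := by
        rw [map_pow, hn]
        ring
      rw [Complex.inv_def, e2, div_eq_mul_inv, Complex.ofReal_inv]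
    have e3 : ‖-(z ^ 2)⁻¹ + deriv k z‖ ^ 2 = Complex.normSq (z ^ 2)⁻¹ + Complex.normSq (deriv k z) -
        2 * (deriv k z * conj (z ^ 2)⁻¹).re := by
      rw [Complex.sq_norm, neg_add_eq_sub, Complex.normSq_sub]
      ring
    have e4 : (deriv k z * conj (z ^ 2)⁻¹).re = 1 / r ^ 4 * (z ^ 2 * deriv k z).re := by
      have e5 : deriv k z * conj (z ^ 2)⁻¹ = ((1 / r ^ 4 : ℝ) : ℂ) * (z ^ 2 * deriv k z) := by
        rw [e1, map_div₀, Complex.conj_conj, Complex.conj_ofReal]
        push_cast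
        ring
      rw [e5, Complex.re_ofReal_mul]
    have e6 : Complex.normSq (z ^ 2)⁻¹ = 1 / r ^ 4 := by
      rw [map_inv₀, map_pow, hn, one_div]
      congr 1
      ring
    rw [e3, e4, e6, Complex.normSq_eq_norm_sq]
    ring
  have hAc : Continuous (fun θ => 1 / r ^ 4 + (B θ - 2 / r ^ 4 * (C θ).re)) := by
    fun_prop
  have hAi : IntegrableOn (fun θ => 1 / r ^ 4 + (B θ - 2 / r ^ 4 * (C θ).re))
      (Ioo (-Real.pi) Real.pi) :=
    (hAc.continuousOn.integrableOn_Icc).mono_set Ioo_subset_Icc_self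
  simp only [hAeq]
  have hB' : ∀ θ, ‖deriv k (circleMap 0 r θ)‖ ^ 2 = B θ := fun θ => by rw [hB]
  simp only [hB']
  have hre : ∫ θ in (-Real.pi)..Real.pi, (C θ).re = 0 := by
    have e1 : ∫ θ in (-Real.pi)..Real.pi, (C θ).re = (∫ θ in (-Real.pi)..Real.pi, C θ).re := by
      have := Complex.reCLM.intervalIntegral_comp_comm
        (hCc.intervalIntegrable (μ := volume) (-Real.pi) Real.pi)
      simpa using this
    have e2 : ∫ θ in (-Real.pi)..Real.pi, C θ = 0 := by
      rw [hC]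
      exact mean_zero k hk r h0 h1
    rw [e1, e2, Complex.zero_re]
  have hInt : ∫ θ in Ioo (-Real.pi) Real.pi, (1 / r ^ 4 + (B θ - 2 / r ^ 4 * (C θ).re)) =
      2 * Real.pi / r ^ 4 + ∫ θ in Ioo (-Real.pi) Real.pi, B θ := by
    rw [← integral_Ioc_eq_integral_Ioo, ← integral_Ioc_eq_integral_Ioo,
      ← intervalIntegral.integral_of_le hle, ← intervalIntegral.integral_of_le hle,
      intervalIntegral.integral_add (by
        apply Continuous.intervalIntegrable
        fun_prop) (by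
        apply Continuous.intervalIntegrable
        fun_prop), intervalIntegral.integral_sub (hBc.intervalIntegrable _ _) (by
        apply Continuous.intervalIntegrable
        fun_prop), intervalIntegral.integral_const_mul, hre, intervalIntegral.integral_const]
    rw [smul_eq_mul]
    ring
  have hA0 : ∀ θ, 0 ≤ 1 / r ^ 4 + (B θ - 2 / r ^ 4 * (C θ).re) := by
    intro θ
    rw [← hAeq]
    positivity
  rw [← ofReal_integral_eq_lintegral_ofReal hAi (Eventually.of_forall hA0),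
    ← ofReal_integral_eq_lintegral_ofReal hBi (Eventually.of_forall fun θ => by
      rw [hB]
      positivity), hInt,
    ENNReal.ofReal_add (by positivity) (by
      apply integral_nonneg
      intro θ
      rw [hB]
      positivity)]

private theorem radial (ρ : ℝ) (hρ : 0 < ρ) (hρ1 : ρ < 1) :
    ∫⁻ r in Ioo ρ 1, ENNReal.ofReal r * ENNReal.ofReal (2 * Real.pi / r ^ 4) =
      ENNReal.ofReal (Real.pi * (1 / ρ ^ 2 - 1)) := by
  have hpi := Real.pi_pos
  have h1 : ∫⁻ r in Ioo ρ 1, ENNReal.ofReal r * ENNReal.ofReal (2 * Real.pi / r ^ 4) =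
      ∫⁻ r in Ioo ρ 1, ENNReal.ofReal (2 * Real.pi / r ^ 3) := by
    apply setLIntegral_congr_fun measurableSet_Ioo
    intro r hr
    have hr0 : 0 < r := hρ.trans hr.1
    simp only
    rw [← ENNReal.ofReal_mul hr0.le]
    congr 1
    field_simp
  have hcont : ContinuousOn (fun r : ℝ => 2 * Real.pi / r ^ 3) (Icc ρ 1) := by
    apply ContinuousOn.div continuousOn_const (by fun_prop)
    intro r hr
    exact pow_ne_zero _ (hρ.trans_le hr.1).ne'
  have hder : ∀ r ∈ uIcc ρ 1, HasDerivAt (fun r : ℝ => -(Real.pi / r ^ 2))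
      (2 * Real.pi / r ^ 3) r := by
    intro r hr
    rw [uIcc_of_le hρ1.le] at hr
    have hr0 : r ≠ 0 := (hρ.trans_le hr.1).ne'
    have h2 := (((hasDerivAt_const r Real.pi).div (hasDerivAt_pow 2 r) (pow_ne_zero 2 hr0))).neg
    refine h2.congr_deriv ?_
    field_simp
    ring
  have hint : IntervalIntegrable (fun r : ℝ => 2 * Real.pi / r ^ 3) volume ρ 1 := by
    apply ContinuousOn.intervalIntegrable
    rw [uIcc_of_le hρ1.le]
    exact hcont
  have hftc := intervalIntegral.integral_eq_sub_of_hasDerivAt hder hint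
  have hI : IntegrableOn (fun r : ℝ => 2 * Real.pi / r ^ 3) (Ioo ρ 1) :=
    (hcont.integrableOn_Icc).mono_set Ioo_subset_Icc_self
  rw [h1, ← ofReal_integral_eq_lintegral_ofReal hI (by
    refine (ae_restrict_iff' measurableSet_Ioo).2 (Eventually.of_forall fun r hr => ?_)
    have hr0 : 0 < r := hρ.trans hr.1
    simp only [Pi.zero_apply]
    positivity),
    ← integral_Ioc_eq_integral_Ioo, ← intervalIntegral.integral_of_le hρ1.le, hftc]
  congr 1
  ring

theorem pATR : Pool.Agent.Helper61.QE.StATR := by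
  intro k hk ρ hρ hρ1
  have hmk : Measurable (deriv k) := measurable_deriv k
  have hm1 : Measurable (fun z : ℂ => ENNReal.ofReal (‖-(z ^ 2)⁻¹ + deriv k z‖ ^ 2)) := by
    fun_prop
  have hm2 : Measurable (fun z : ℂ => ENNReal.ofReal (‖deriv k z‖ ^ 2)) := by
    fun_prop
  rw [polar ρ hρ _ hm1, polar ρ hρ _ hm2, ← radial ρ hρ hρ1,
    ← lintegral_add_left (by fun_prop)]
  apply setLIntegral_congr_fun measurableSet_Ioo
  intro r hr
  simp only
  rw [per_r k hk r (hρ.trans hr.1) hr.2, mul_add]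

end Pool.Agent.Helper36.QE
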