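import Pool.Agent.Helper61.QE.St5
import Pool.Agent.Helper68.QC.Cal

/-! QE MODULE RPH (project QD part E, MP_d112a4_gt): the deformed groups. -/

set_option autoImplicit false

open MeasureTheory Set Filter Topology Complex
open scoped ContDiff ComplexConjugate ENNReal

namespace Pool.Agent.Helper36.QE

open Pool.Agent.Helper61.QE Pool.Agent.Helper68.QC

theorem pRPH (hUNI : Pool.Agent.Helper68.QC.StUNI) (hREP : Pool.Agent.Helper68.QC.StREP)
    (hCOE : Pool.Agent.Helper61.QE.StCOE) : Pool.Agent.Helper61.QE.StRPH := by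
  intro Γ _ s h κ k hs hh hk hκ t ht
  have hk0 : 0 ≤ k := (norm_nonneg _).trans (hκ.bel.le 0)
  have ht1 : ‖t‖ < 1 := by simpa using ht
  -- the identity solves the equation with coefficient zero
  have hB0 : Bel (1 / 2) (fun _ => (0 : ℂ)) :=
    ⟨measurable_const, fun z => by rw [norm_zero]; norm_num⟩
  have hid : Homeomorph.refl ℂ = nq (fun _ => (0 : ℂ)) := by
    apply hUNI (1 / 2) (by norm_num) _ hB0 (Homeomorph.refl ℂ) rfl rfl ∅ finite_empty
    rw [compl_empty]
    exact sol_zero isOpen_univ differentiableOn_id (Eventually.of_forall fun _ => rfl)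
  obtain ⟨r, hr⟩ : ∃ r : ℝ, r = 2 / (1 + k) := ⟨_, rfl⟩
  have h1k : 0 < 1 + k := by linarith
  have hr1 : 1 < r := by
    rw [hr, lt_div_iff₀ h1k]
    linarith
  have hkr : k * r < 1 := by
    have e1 : k * r = 2 * k / (1 + k) := by rw [hr]; ring
    rw [e1, div_lt_one h1k]
    linarith
  obtain ⟨ρ1, -, -, hI1⟩ := hREP (k * r) hkr 0 r (fun τ z => τ * κ z)
    (by
      intro τ hτ
      have hτ' : ‖τ‖ < r := by simpa using hτ
      refine ⟨hκ.bel.meas.const_mul τ, fun z => ?_⟩
      rw [norm_mul, mul_comm k r]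
      exact mul_le_mul hτ'.le (hκ.bel.le z) (norm_nonneg _) (by linarith))
    (by
      intro z
      exact (differentiable_id.mul_const (κ z)).differentiableOn)
    Γ _ s s
    (by
      intro τ _ γ
      filter_upwards [hκ.inv γ] with z hz
      rw [mul_assoc, hz, mul_assoc])
    (by
      intro γ
      have e1 : (fun z => (0 : ℂ) * κ z) = fun _ => (0 : ℂ) := by
        funext z
        rw [zero_mul]
      rw [e1, ← hid]
      exact ⟨fun z => Iff.rfl, fun z _ => rfl, Iff.rfl, fun _ => rfl⟩)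
    (by linarith)
  have hI1' : ∀ γ, Intw (s γ) (ρ1 1 γ) (nq κ) := by
    intro γ
    have h2 := hI1 1 (by simpa using hr1) γ
    have e1 : (fun z => (1 : ℂ) * κ z) = κ := by
      funext z
      rw [one_mul]
    rw [e1] at h2
    exact h2
  have hC := (hCOE Γ s h κ k hs.su ⟨hh.hol, hh.eqv⟩ hk0 hκ).1
  obtain ⟨r', hr'⟩ : ∃ r' : ℝ, r' = (1 + ‖t‖) / 2 := ⟨_, rfl⟩
  have hn := norm_nonneg t
  obtain ⟨ρ2, -, -, hI2⟩ := hREP (max k r') (max_lt hk (by linarith)) 0 r' (fun τ => muT κ h τ)
    (by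
      intro τ hτ
      have hτ' : ‖τ‖ < r' := by simpa using hτ
      exact ⟨(hC τ).1.meas, fun z => ((hC τ).1.le z).trans (max_le_max le_rfl hτ'.le)⟩)
    (by
      intro z
      unfold muT
      exact ((differentiable_id.mul_const (nuT h z)).const_add (κ z)).differentiableOn)
    Γ _ s (ρ1 1)
    (fun τ _ γ => (hC τ).2 γ)
    (by
      intro γ
      have e1 : muT κ h 0 = κ := by
        funext z
        unfold muT
        rw [zero_mul, add_zero]
      rw [e1]
      exact hI1' γ)
    (by linarith)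
  exact ⟨ρ1 1, ρ2 t, hI1', fun γ => hI2 t (by
    rw [mem_ball_zero_iff]
    linarith) γ⟩

end Pool.Agent.Helper36.QE
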