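import Pool.Agent.Helper61.QE.St3

/-! QE MODULE SMA (project QD part E, MP_d112a4_gt): smallness. -/

set_option autoImplicit false

namespace Pool.Agent.Helper36.QE

theorem pSMA : Pool.Agent.Helper61.QE.StSMA := by
  intro x y w x' y' w' A1 A2 _ _ _ hxy hxw hyw hx' hy' hw' h1 h2
  have ha : x - w ≠ 0 := by
    intro h
    rw [h, norm_zero] at hxw
    linarith
  have hb : y - w ≠ 0 := by
    intro h
    rw [h, norm_zero] at hyw
    linarith
  have hda : ‖(x' - w') - (x - w)‖ ≤ 1 / 800 := by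
    have e : (x' - w') - (x - w) = (x' - x) - (w' - w) := by ring
    rw [e]
    refine (norm_sub_le _ _).trans ?_
    linarith
  have hdb : ‖(y' - w') - (y - w)‖ ≤ 1 / 800 := by
    have e : (y' - w') - (y - w) = (y' - y) - (w' - w) := by ring
    rw [e]
    refine (norm_sub_le _ _).trans ?_
    linarith
  have ha' : x' - w' ≠ 0 := by
    intro h
    rw [h, zero_sub, norm_neg] at hda
    linarith
  have hb' : y' - w' ≠ 0 := by
    intro h
    rw [h, zero_sub, norm_neg] at hdb
    linarith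
  have hd : 1 / 2 - 1 / 800 ≤ ‖x' - y'‖ := by
    have e : x - y = (x' - y') - ((x' - x) - (y' - y)) := by ring
    have e2 : ‖x - y‖ ≤ ‖x' - y'‖ + (1 / 1600 + 1 / 1600) := by
      rw [e]
      refine (norm_sub_le _ _).trans ?_
      have := norm_sub_le (x' - x) (y' - y)
      linarith
    linarith
  have key : A1 * (x' - y') =
      ((x' - w') - (x - w)) * (x - w)⁻¹ - ((y' - w') - (y - w)) * (y - w)⁻¹ := by
    have e1 : (x' - w') * (x - w)⁻¹ = A1 * (x' - w') + A2 := by
      rw [h1]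
      field_simp
    have e2 : (y' - w') * (y - w)⁻¹ = A1 * (y' - w') + A2 := by
      rw [h2]
      field_simp
    have e3 : (x - w) * (x - w)⁻¹ = 1 := mul_inv_cancel₀ ha
    have e4 : (y - w) * (y - w)⁻¹ = 1 := mul_inv_cancel₀ hb
    linear_combination -e1 + e2 + e3 - e4
  have hn : ‖A1‖ * ‖x' - y'‖ ≤ 1 / 200 := by
    rw [← norm_mul, key]
    refine (norm_sub_le _ _).trans ?_
    rw [norm_mul, norm_mul, norm_inv, norm_inv]
    have i1 : ‖x - w‖⁻¹ ≤ 2 := by
      rw [inv_le_comm₀ (by linarith) (by norm_num)]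
      linarith
    have i2 : ‖y - w‖⁻¹ ≤ 2 := by
      rw [inv_le_comm₀ (by linarith) (by norm_num)]
      linarith
    have j1 : ‖(x' - w') - (x - w)‖ * ‖x - w‖⁻¹ ≤ 1 / 800 * 2 :=
      mul_le_mul hda i1 (by positivity) (by norm_num)
    have j2 : ‖(y' - w') - (y - w)‖ * ‖y - w‖⁻¹ ≤ 1 / 800 * 2 :=
      mul_le_mul hdb i2 (by positivity) (by norm_num)
    linarith
  have hA := norm_nonneg A1
  by_contra hcon
  push Not at hcon
  have : 1 / 2 * (1 / 2 - 1 / 800) ≤ ‖A1‖ * ‖x' - y'‖ :=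
    mul_le_mul hcon hd (by norm_num) hA
  linarith

end Pool.Agent.Helper36.QE
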