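import Pool.Agent.Helper61.QE.St2

/-! QE MODULE SNX (project QD part E, MP_d112a4_gt): the concentration set avoids the limit of the
outer domains. -/

set_option autoImplicit false

open MeasureTheory Set Filter Topology Complex
open scoped ContDiff ComplexConjugate ENNReal

namespace Pool.Agent.Helper36.QE

open Pool.Agent.Helper61.QE

theorem pSNX (hHUR : Pool.Agent.Helper61.QE.StHUR) : Pool.Agent.Helper61.QE.StSNX := by
  intro U G P hG hd hi h0 hcon x hx u hu hxu
  obtain ⟨ε, hε, hev⟩ := hHUR U G P hG hd hi h0 hcon x u hu hxu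
  obtain ⟨c, hc0, -, hcev⟩ := hx ε hε
  obtain ⟨n, h1, h2⟩ := (hev.and hcev).exists
  have hemp : G n '' D ∩ Metric.ball x ε = ∅ := by
    rw [eq_empty_iff_forall_notMem]
    rintro y ⟨⟨d, hd', rfl⟩, hy⟩
    obtain ⟨v, hv, hv0, hvy⟩ := h1 _ hy
    have h3 : d = v⁻¹ := (G n).injective hvy
    rw [h3, mem_ball_zero_iff, norm_inv] at hd'
    rw [mem_ball_zero_iff] at hv
    have h4 : 0 < ‖v‖ := norm_pos_iff.2 hv0
    have h5 : 1 ≤ ‖v‖⁻¹ := (one_le_inv₀ h4).2 hv.le
    linarith
  rw [hemp, measure_empty, nonpos_iff_eq_zero, mul_eq_zero] at h2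
  rcases h2 with h2 | h2
  · exact hc0.ne' h2
  · have hop : IsOpen (G n '' D) := (G n).isOpenMap _ Metric.isOpen_ball
    have hne : (G n '' D).Nonempty := ⟨G n 0, 0, by simp, rfl⟩
    exact (hop.measure_pos volume hne).ne' h2

end Pool.Agent.Helper36.QE
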